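import Mathlib
import Pool.Agent.R246.Pauli

/-!
# A Pauli set of functions supported in `[0,1]` which is a Cantor set
-/

namespace Pool.Agent.Results.MP_d886ff_an.CantorPauliSet

open MeasureTheory FourierTransform Filter Topology Set Pool.Agent.R246.Pauli

noncomputable section

/-- The Hilbert space `L²(ℝ)` of complex functions. -/
abbrev L2 := Lp ℂ 2 (volume : Measure ℝ)

/-- `(f, g)` is a Pauli pair: `f, g` are linearly independent, `|f| = |g|` and `|f^| = |g^|` almost
everywhere. Here `𝓕` is the Fourier (Plancherel) transform of `L²(ℝ)`. -/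
def IsPauliPair (f g : L2) : Prop :=
  LinearIndependent ℂ ![f, g] ∧ (∀ᵐ x : ℝ, ‖f x‖ = ‖g x‖) ∧
    (∀ᵐ ξ : ℝ, ‖(𝓕 f : L2) ξ‖ = ‖(𝓕 g : L2) ξ‖)

/-- `P` is a Pauli set: it has at least two elements, and any two distinct elements of `P` form a
Pauli pair. -/
def IsPauliSet (P : Set L2) : Prop :=
  P.Nontrivial ∧ ∀ f ∈ P, ∀ g ∈ P, f ≠ g → IsPauliPair f g

/-- the element of `L²` given by `F b` -/
def G (b : ℕ → Bool) : L2 := (F_memLp b).toLp (F b)

lemma G_coe (b : ℕ → Bool) : (G b : ℝ → ℂ) =ᵐ[volume] F b := (F_memLp b).coeFn_toLp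

lemma norm_sub_le (b b' : ℕ → Bool) : ‖G b - G b'‖ ≤ dd b b' := by
  have h1 : G b - G b' = ((F_memLp b).sub (F_memLp b')).toLp _ := by
    unfold G; rw [MemLp.toLp_sub]
  rw [h1, Lp.norm_toLp]
  have hd := dd_nonneg b b'
  have h2 : eLpNorm (F b - F b') 2 volume ≤
      eLpNorm ((Ico (0 : ℝ) 1).indicator (fun _ => dd b b')) 2 volume := by
    refine eLpNorm_mono fun x => ?_
    refine (F_sub b b' x).trans (le_abs_self _)
  have h3 : eLpNorm ((Ico (0 : ℝ) 1).indicator (fun _ => dd b b')) 2 volume =
      ENNReal.ofReal (dd b b') := by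
    rw [eLpNorm_indicator_const measurableSet_Ico (by norm_num) (by norm_num)]
    rw [Real.volume_Ico]
    simp [Real.enorm_eq_ofReal hd]
  rw [h3] at h2
  exact ENNReal.toReal_le_of_le_ofReal hd h2

lemma dd_le (b b' : ℕ → Bool) (n : ℕ) (h : ∀ k < n, b k = b' k) :
    dd b b' ≤ ∑' k, 2 * th (k + n) := by
  have hs : Summable fun k => 2 * th k := th_summable.mul_left 2
  unfold dd
  have hs' : Summable fun k => (if b k = b' k then 0 else 2 * th k : ℝ) := by
    refine Summable.of_nonneg_of_le (fun k => ?_) (fun k => ?_) hs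
    · split_ifs; exacts [le_rfl, by have := th_pos k; positivity]
    · split_ifs; exacts [by have := th_pos k; positivity, le_rfl]
  rw [← hs'.sum_add_tsum_nat_add n, Finset.sum_eq_zero, zero_add]
  · have a1 : Summable fun k => (if b (k + n) = b' (k + n) then 0 else 2 * th (k + n) : ℝ) :=
      (summable_nat_add_iff (f := fun k => (if b k = b' k then 0 else 2 * th k : ℝ)) n).2 hs'
    have a2 : Summable fun k => 2 * th (k + n) :=
      (summable_nat_add_iff (f := fun k => 2 * th k) n).2 hs
    refine Summable.tsum_le_tsum (fun k => ?_) a1 a2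
    show (if b (k + n) = b' (k + n) then (0 : ℝ) else 2 * th (k + n)) ≤ 2 * th (k + n)
    have := th_pos (k + n)
    split_ifs
    · positivity
    · exact le_rfl
  · intro k hk
    rw [if_pos (h k (Finset.mem_range.1 hk))]

lemma tail : Tendsto (fun n => ∑' k, 2 * th (k + n)) atTop (𝓝 0) :=
  tendsto_sum_nat_add (fun k => 2 * th k)

lemma G_continuous : Continuous G := by
  rw [continuous_iff_continuousAt]
  intro b
  rw [Metric.continuousAt_iff']
  intro ε hε
  obtain ⟨n, hn⟩ := ((tendsto_order.1 tail).2 ε hε).exists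
  have hev : ∀ᶠ b' in 𝓝 b, ∀ k < n, b' k = b k := by
    have : ∀ k < n, ∀ᶠ b' in 𝓝 b, b' k = b k := fun k _ => by
      have h1 : Tendsto (fun b' : ℕ → Bool => b' k) (𝓝 b) (𝓝 (b k)) :=
        (continuous_apply k).continuousAt
      rw [nhds_discrete Bool, tendsto_pure] at h1
      exact h1
    exact (Filter.eventually_all_finite (Set.finite_Iio n)).2 this
  filter_upwards [hev] with b' hb'
  rw [dist_eq_norm]
  exact ((norm_sub_le b' b).trans (dd_le b' b n hb')).trans_lt hn

lemma independent (b b' : ℕ → Bool) (h : b ≠ b') : LinearIndependent ℂ ![G b, G b'] := by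
  obtain ⟨k, hk⟩ := Function.ne_iff.1 h
  rw [LinearIndependent.pair_iff]
  intro s t hst
  -- the relation holds almost everywhere
  have h1 : ∀ᵐ x : ℝ, s * F b x + t * F b' x = 0 := by
    have e : ((s • G b + t • G b' : L2) : ℝ → ℂ) =ᵐ[volume] fun x => s * F b x + t * F b' x := by
      filter_upwards [Lp.coeFn_add (s • G b) (t • G b'), Lp.coeFn_smul s (G b),
        Lp.coeFn_smul t (G b'), G_coe b, G_coe b'] with x h1 h2 h3 h4 h5
      rw [h1, Pi.add_apply, h2, h3, Pi.smul_apply, Pi.smul_apply, h4, h5]; rfl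
    have e2 : ((s • G b + t • G b' : L2) : ℝ → ℂ) =ᵐ[volume] 0 := by
      rw [hst]; exact Lp.coeFn_zero _ _ _
    filter_upwards [e, e2] with x hx hx2
    rw [← hx, hx2]; rfl
  have h2 : ∀ᵐ x : ℝ, s * F b (x - st k) + t * F b' (x - st k) = 0 :=
    (measurePreserving_sub_right (volume : Measure ℝ) (st k)).quasiMeasurePreserving.ae h1
  have hst := st_pos k
  -- a point of the interval [st k, 2 st k) where both hold
  have hpos : volume (Ico (st k) (2 * st k)) ≠ 0 := by
    rw [Real.volume_Ico]; simp; linarith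
  obtain ⟨x, hx, hx1, hx2⟩ : ∃ x ∈ Ico (st k) (2 * st k), s * F b x + t * F b' x = 0 ∧
      s * F b (x - st k) + t * F b' (x - st k) = 0 := by
    by_contra hcon
    push Not at hcon
    apply hpos
    have h3 := h1.and h2
    rw [ae_iff] at h3
    refine measure_mono_null ?_ h3
    intro x hx
    simp only [mem_ofPred_eq, not_and]
    exact hcon x hx
  have hst3 : st k ≤ 1 / 3 := by
    unfold st
    rw [one_div]
    apply inv_anti₀ (by norm_num)
    have : (1 : ℝ) ≤ 3 ^ k := one_le_pow₀ (by norm_num)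
    rw [pow_succ]; linarith
  have hN : N k x = 1 := by
    unfold N
    rw [Int.floor_eq_iff]
    have h3 : (3 : ℝ) ^ (k + 1) * st k = 1 := by unfold st; field_simp
    have hp : (0 : ℝ) < 3 ^ (k + 1) := by positivity
    constructor
    · push_cast
      nlinarith [mul_le_mul_of_nonneg_left hx.1 hp.le]
    · push_cast
      nlinarith [mul_lt_mul_of_pos_left hx.2 hp]
  have m1 : x ∈ Ico (0 : ℝ) 1 := ⟨by linarith [hx.1], by linarith [hx.2]⟩
  have m2 : x - st k ∈ Ico (0 : ℝ) 1 := ⟨by linarith [hx.1], by linarith [hx.2]⟩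
  have key : ∀ d : ℕ → Bool, F d x = Complex.exp (((sg (d k) * th k : ℝ) : ℂ) * Complex.I) *
      F d (x - st k) := by
    intro d
    have e1 : x - st k = x - ((1 : ℤ) : ℝ) * st k := by push_cast; ring
    have hph := ph_shift d k x 1 (by norm_num) (by omega)
    rw [← e1] at hph
    have n1 : N k (x - st k) = 0 := by rw [e1, N_sub', hN]; rfl
    have c1 : c k x = th k := by unfold c; rw [if_pos (by omega)]
    have c2 : c k (x - st k) = 0 := by unfold c; rw [if_neg]; omega
    rw [c1, c2, sub_zero] at hph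
    rw [F, F, if_pos m1, if_pos m2, hph, ← Complex.exp_add]
    congr 1; push_cast; ring
  rw [key b, key b'] at hx1
  have hn1 : F b (x - st k) ≠ 0 := by
    unfold F; rw [if_pos m2]; exact Complex.exp_ne_zero _
  have hn2 : F b' (x - st k) ≠ 0 := by
    unfold F; rw [if_pos m2]; exact Complex.exp_ne_zero _
  set A := F b (x - st k)
  set B := F b' (x - st k)
  set u := Complex.exp (((sg (b k) * th k : ℝ) : ℂ) * Complex.I) with hu
  set v := Complex.exp (((sg (b' k) * th k : ℝ) : ℂ) * Complex.I) with hv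
  have huv : u ≠ v := by
    intro he
    have him := congrArg Complex.im he
    rw [hu, hv, Complex.exp_ofReal_mul_I_im, Complex.exp_ofReal_mul_I_im] at him
    have hpos : 0 < Real.sin (th k) := by
      apply Real.sin_pos_of_pos_of_lt_pi (th_pos k)
      have : th k ≤ 1 := by
        unfold th; exact pow_le_one₀ (by norm_num) (by norm_num)
      linarith [Real.pi_gt_three]
    have hneg : Real.sin (-1 * th k) = - Real.sin (th k) := by rw [neg_one_mul, Real.sin_neg]
    rcases Bool.eq_false_or_eq_true (b k) with h1 | h1 <;>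
      rcases Bool.eq_false_or_eq_true (b' k) with h2 | h2
    · exact hk (h1.trans h2.symm)
    · rw [h1, h2] at him
      have e1 : sg true = -1 := rfl
      have e2 : sg false = 1 := rfl
      rw [e1, e2, one_mul, hneg] at him
      linarith
    · rw [h1, h2] at him
      have e1 : sg true = -1 := rfl
      have e2 : sg false = 1 := rfl
      rw [e1, e2, one_mul, hneg] at him
      linarith
    · exact hk (h1.trans h2.symm)
  have hs : s = 0 := by
    have h3 : s * A * (u - v) = 0 := by linear_combination hx1 - v * hx2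
    rcases mul_eq_zero.1 h3 with h4 | h4
    · exact (mul_eq_zero.1 h4).resolve_right hn1
    · exact absurd (sub_eq_zero.1 h4) huv
  subst hs
  refine ⟨rfl, ?_⟩
  rw [zero_mul, zero_add] at hx2
  exact (mul_eq_zero.1 hx2).resolve_right hn2

lemma G_injective : Function.Injective G := by
  intro b b' h
  by_contra hne
  have := independent b b' hne
  rw [h] at this
  have h2 := (LinearIndependent.pair_iff.1 this) 1 (-1) (by simp)
  exact one_ne_zero h2.1

lemma pauli (b b' : ℕ → Bool) (h : b ≠ b') : IsPauliPair (G b) (G b') := by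
  refine ⟨independent b b' h, ?_, ?_⟩
  · filter_upwards [G_coe b, G_coe b'] with x h1 h2
    rw [h1, h2, F_norm, F_norm]
  · filter_upwards [Pool.Agent.H153R4.fourier_ae_eq (F b) (F_int b) (F_memLp b),
      Pool.Agent.H153R4.fourier_ae_eq (F b') (F_int b') (F_memLp b')] with ξ h1 h2
    change ‖(𝓕 ((F_memLp b).toLp (F b)) : L2) ξ‖ = ‖(𝓕 ((F_memLp b').toLp (F b')) : L2) ξ‖
    rw [h1, h2]
    exact norm_fourier_eq b b' ξ

/-- There is a Pauli set `P` in `L²(ℝ)`, all of whose elements vanish outside `[0,1]`, which is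
homeomorphic to the Cantor space `{0,1}^ℕ`; in particular `P` is compact and uncountable, and no
point of `P` is isolated in `P`. -/
theorem result : ∃ P : Set L2, IsPauliSet P ∧
    (∀ f ∈ P, ∀ᵐ x : ℝ, x ∉ Icc (0 : ℝ) 1 → f x = 0) ∧
    Nonempty ((ℕ → Bool) ≃ₜ P) ∧ IsCompact P ∧ ¬ P.Countable ∧
    (∀ f ∈ P, ∀ ε > 0, ∃ g ∈ P, g ≠ f ∧ ‖f - g‖ < ε) := by
  have hemb : IsEmbedding G := (G_continuous.isClosedEmbedding G_injective).isEmbedding
  refine ⟨range G, ⟨?_, ?_⟩, ?_, ⟨hemb.toHomeomorph⟩, isCompact_range G_continuous, ?_, ?_⟩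
  · refine ⟨G (fun _ => true), mem_range_self _, G (fun _ => false), mem_range_self _, ?_⟩
    intro h
    have := congrFun (G_injective h) 0
    simp at this
  · rintro _ ⟨b, rfl⟩ _ ⟨b', rfl⟩ hne
    exact pauli b b' fun h => hne (by rw [h])
  · rintro _ ⟨b, rfl⟩
    filter_upwards [G_coe b] with x hx hx2
    rw [hx]
    unfold F
    rw [if_neg]
    intro h; exact hx2 (Ico_subset_Icc_self h)
  · intro hc
    have : (univ : Set (ℕ → Bool)).Countable := by
      have h2 := hc.preimage_of_injOn (f := G) G_injective.injOn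
      rwa [preimage_range] at h2
    have h3 : Countable (ℕ → Bool) := Set.countable_univ_iff.1 this
    obtain ⟨e, he⟩ := exists_surjective_nat (ℕ → Bool)
    obtain ⟨n, hn⟩ := he fun n => !(e n n)
    have h4 := congrFun hn n
    simp at h4
  · rintro _ ⟨b, rfl⟩ ε hε
    obtain ⟨n, hn⟩ := ((tendsto_order.1 tail).2 ε hε).exists
    refine ⟨G (Function.update b n (!b n)), mem_range_self _, ?_, ?_⟩
    · intro h
      have := congrFun (G_injective h) n
      rw [Function.update_self] at this
      simp at this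
    · refine ((norm_sub_le _ _).trans (dd_le _ _ n fun k hk => ?_)).trans_lt hn
      rw [Function.update_of_ne (by omega)]

end

end Pool.Agent.Results.MP_d886ff_an.CantorPauliSet
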